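import Pool.Agent.Y761.DP.Inj

/-!
# Project DP: the height of the generic member of the family
-/

set_option autoImplicit false
set_option linter.unusedSectionVars false

namespace Pool.Agent.Y761.DP

open FF Pool.Agent.W603.LV Pool.Agent.TH145.GH Pool.Agent.Y166.DP

section lin

variable {k K : Type} [Field k] [Field K] [Algebra k K] {x y : K} {α β γ : k} {m : ℕ}

theorem r1_single (j : Fin m) : r1 x y α β γ (Pi.single j (1 : k)) =
    fn x y (j + 2) - algebraMap k K (fn (px α β γ) (py α β γ) (j + 2) / px α β γ) * x := by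
  classical
  unfold r1
  rw [Finset.sum_eq_single j]
  · rw [Pi.single_eq_same, map_one, one_mul]
  · intro i _ hi
    rw [Pi.single_eq_of_ne hi, map_zero, zero_mul]
  · intro h
    exact absurd (Finset.mem_univ j) h

theorem r1_lin (c : Fin m → k) :
    ∑ j, c j • r1 x y α β γ (Pi.single j (1 : k)) = r1 x y α β γ c := by
  conv_rhs => unfold r1
  refine Finset.sum_congr rfl fun j _ => ?_
  rw [r1_single, Algebra.smul_def]

end lin

section ht

variable {k K : Type} [Field k] [Field K] [Algebra k K] [CharZero k] [IsAlgClosed k] [IsFF k K]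
  {lam : k} {x y : K} {o : Place k K} {α β γ : k} {m : ℕ}

theorem r0_ne (hB : StmBasis) (hE : Ell k K lam x y) (ho : o.ord x < 0) {r : Fin m → k}
    (h : r0 x y α β γ r = 0) : r = 0 := by
  unfold r0 at h
  have h1 := (sum0_eq (x := x) (y := y) (fun n => fn (px α β γ) (py α β γ) n) r).symm.trans h
  have h4 := (hB k K lam x y hE o ho).2.1 _ _ h1
  funext j
  have h5 := congrFun h4 j.succ
  rw [Fin.cons_succ] at h5
  exact h5

theorem r1_ne (hB : StmBasis) (hE : Ell k K lam x y) (ho : o.ord x < 0) {r : Fin m → k}
    (h : r1 x y α β γ r = 0) : r = 0 := by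
  unfold r1 at h
  have h1 := (sum1_eq (x := x) (y := y) (fun n => fn (px α β γ) (py α β γ) n / px α β γ)
    r).symm.trans h
  have h4 := (hB k K lam x y hE o ho).2.1 _ _ h1
  funext j
  have h5 := congrFun h4 j.succ.succ
  rw [Fin.cons_succ, Fin.cons_succ] at h5
  exact h5

theorem stmHt (hInf : StmInf) (hB : StmBasis) (hRR : StmRR) (hPts : StmPts) (hExt : StmExt)
    (hPres : StmPres) (hPhi : StmPhi) (hUU : StmUU) : StmHt := by
  classical
  intro k K _ _ _ _ _ _ lam x y hE α β γ hβ hγ hαβγ hsym m r s hm hr hs hD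
  have hK : CharZero K := charZero_of_injective_algebraMap (algebraMap k K).injective
  obtain ⟨o, hox, hoy, hreg⟩ := hInf k K lam x y hE
  have ho : o.ord x < 0 := by omega
  obtain ⟨p, p', hpo, hp'o, hpp', hpx, hpy, hp'x, hp'y, hphi0, hphi⟩ :=
    hPhi k K lam x y hE o ho α β γ hβ hγ hαβγ hsym
  obtain ⟨T, hTx, hTy⟩ := (hPts k K lam x y hE).2.1 0 0 (by ring)
  have hP3 := (hPts k K lam x y hE).2.2
  have hx0 := x_ne hE
  have hpx0 : px α β γ ≠ 0 := px_ne hE.lam0 hβ hγ
  have hxphi0 : x * phi x y α β γ ≠ 0 := mul_ne_zero hx0 hphi0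
  have hTo : T ≠ o := by
    intro h
    have h1 : Ge T 0 x := Vl.reg hTx
    rw [h] at h1
    have h2 := h1.resolve_left hx0
    omega
  have hTp' : T ≠ p' := by
    intro h
    rw [h] at hTx
    exact hpx0 (Vl.unique hp'x hTx)
  have hordx : ∀ P : Place k K, P ≠ o → P.ord x = if P = T then 2 else 0 := by
    intro P hP
    rcases ord_x hInf hPts hE ho hP with h | ⟨h, _, h1, h2⟩
    · rw [h, if_neg]
      intro h3
      have h4 := (hP3 0 0 T hTx hTy).2.2 rfl
      rw [map_zero, sub_zero] at h4
      rw [h3] at h
      omega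
    · rw [h, if_pos]
      exact (hP3 0 0 T hTx hTy).1 P h1 h2
  have hr0 : r0 x y α β γ r ≠ 0 := fun h => hr (r0_ne hB hE ho h)
  have hr1 : r1 x y α β γ s ≠ 0 := fun h => hs (r1_ne hB hE ho h)
  -- the expected orders
  obtain ⟨e0, he0⟩ : ∃ e0 : Place k K → ℤ, e0 = fun P =>
    (if P = p' then 1 else 0) - ((m : ℤ) + 1) * (if P = o then 1 else 0) := ⟨_, rfl⟩
  obtain ⟨e1, he1⟩ : ∃ e1 : Place k K → ℤ, e1 = fun P =>
    (if P = p' then 1 else 0) + (if P = T then 1 else 0) -
      ((m : ℤ) + 2) * (if P = o then 1 else 0) := ⟨_, rfl⟩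
  have hge0 : ∀ (P : Place k K) (r : Fin m → k), Ge P (e0 P) (r0 x y α β γ r) := by
    intro P r
    rw [he0]
    by_cases h1 : P = o
    · have h2 : P ≠ p' := h1 ▸ hp'o.symm
      simp only [if_neg h2, if_pos h1]
      rw [h1]
      exact (r0_o (α := α) (β := β) (γ := γ) hB hE ho r).mono (by omega)
    · by_cases h2 : P = p'
      · simp only [if_pos h2, if_neg h1]
        rw [h2]
        exact (r0_p' hp'x hp'y r).mono (by omega)
      · simp only [if_neg h2, if_neg h1]
        exact (r0_reg (hreg P h1).1 (hreg P h1).2 r).mono (by omega)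
  have hge1 : ∀ (P : Place k K) (r : Fin m → k), Ge P (e1 P) (r1 x y α β γ r) := by
    intro P r
    rw [he1]
    by_cases h1 : P = o
    · have h2 : P ≠ p' := h1 ▸ hp'o.symm
      have h3 : P ≠ T := h1 ▸ hTo.symm
      simp only [if_neg h2, if_neg h3, if_pos h1]
      rw [h1]
      exact (r1_o (α := α) (β := β) (γ := γ) hInf hB hE ho r).mono (by omega)
    · by_cases h2 : P = p'
      · have h3 : P ≠ T := h2 ▸ hTp'.symm
        simp only [if_pos h2, if_neg h3, if_neg h1]
        rw [h2]
        exact (r1_p' hp'x hp'y hpx0 r).mono (by omega)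
      · by_cases h3 : P = T
        · simp only [if_neg h2, if_pos h3, if_neg h1]
          rw [h3]
          exact (r1_T hTx hTy r).mono (by omega)
        · simp only [if_neg h2, if_neg h3, if_neg h1]
          exact (r1_reg (hreg P h1).1 (hreg P h1).2 r).mono (by omega)
  -- the key claim
  have key : ∀ P : Place k K, Ge P (e0 P + 1) (r0 x y α β γ r) →
      Ge P (e1 P + 1) (r1 x y α β γ s) → False := by
    intro P hP0 hP1
    have heps : ∀ j : Fin m, Ge P (e1 P + 1) (r1 x y α β γ (Pi.single j (1 : k))) := by
      intro j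
      obtain ⟨D, hDl, hDα, hDr, hDs⟩ := hD j
      obtain ⟨D', hL, hDx⟩ := (hExt k K x hE.tr).1 D
      have hsem : Sem k D' := sem_of_lifts hL
      have hDβ : D β = 0 := by
        apply dz_sq
        rw [hβ, map_sub, dz_pow D hDα, Derivation.map_one_eq_zero, sub_zero]
      have hDγ : D γ = 0 := by
        apply dz_sq
        rw [hγ, map_sub, dz_pow D hDα, hDl, sub_zero]
      have hDy : D' y = 0 := dy_zero hE hDl hL hDx
      have hDpx : D (px α β γ) = 0 := by
        unfold px
        exact dz_mul D (by rw [map_add, hDα, hDβ, add_zero]) (by rw [map_add, hDα, hDγ, add_zero])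
      have hDpy : D (py α β γ) = 0 := by
        unfold py
        exact dz_mul D (dz_mul D (by rw [map_add, hDα, hDβ, add_zero])
          (by rw [map_add, hDα, hDγ, add_zero])) (by rw [map_add, hDβ, hDγ, add_zero])
      have hDr0 : D' (r0 x y α β γ r) = 0 := by
        unfold r0
        rw [map_sum]
        refine Finset.sum_eq_zero fun i _ => ?_
        refine dz_mul D' ?_ ?_
        · rw [hL, hDr, map_zero]
        · rw [map_sub, dz_fn D' hDx hDy, hL, dz_fn D hDpx hDpy, map_zero, sub_zero]
      have hDr1 : D' (r1 x y α β γ s) = r1 x y α β γ (Pi.single j (1 : k)) := by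
        unfold r1
        rw [map_sum]
        refine Finset.sum_congr rfl fun i _ => ?_
        have h6 : D' (algebraMap k K (fn (px α β γ) (py α β γ) (i + 2) / px α β γ) * x) = 0 := by
          refine dz_mul D' ?_ hDx
          rw [hL, dz_div D (dz_fn D hDpx hDpy _) hDpx, map_zero]
        rw [Derivation.leibniz, map_sub, dz_fn D' hDx hDy, h6, hL, sub_zero, smul_zero, zero_add,
          smul_eq_mul, hDs, Pi.single_apply]
        ring
      -- a uniformizer
      have huni : ∃ π : K, P.ord π = 1 ∧ Ge P 1 (D' π) := by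
        by_cases hPo : P = o
        · have hy0 := y_ne hE
          refine ⟨x / y, ?_, ?_⟩
          · rw [P.ord_div hx0 hy0, hPo, hox, hoy]
            norm_num
          · rw [dz_div D' hDx hDy]
            exact Ge.zero
        · obtain ⟨a, b, hab, ha, hb⟩ := (hPts k K lam x y hE).1 P (hreg P hPo).1
          obtain ⟨_, h2, h3⟩ := hP3 a b P ha hb
          by_cases hb0 : b = 0
          · refine ⟨y, (h3 hb0).1, ?_⟩
            rw [hDy]
            exact Ge.zero
          · refine ⟨x - algebraMap k K a, h2 hb0, ?_⟩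
            by_cases hPp' : P = p'
            · have h4 : a = px α β γ := by
                rw [hPp'] at ha
                exact Vl.unique ha hp'x
              rw [map_sub, hDx, hL, h4, hDpx, map_zero, sub_zero]
              exact Ge.zero
            · refine (hPres k K P D' hsem).1 _ (h2 hb0) _ hr0 ?_ hDr0
              have h5 := hP0.resolve_left hr0
              have h6 : e0 P = 0 := by
                rw [he0]
                simp only [if_neg hPp', if_neg hPo]
                ring
              omega
      obtain ⟨π, hπ, hπD⟩ := huni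
      have h1 := (hPres k K P D' hsem).2 π hπ hπD _ _ hP1
      rw [hDr1] at h1
      exact h1
    -- dimension count
    obtain ⟨E, hEdef⟩ : ∃ E : Place k K →₀ ℤ, E = Finsupp.single o ((m : ℤ) + 2) -
      Finsupp.single p' 1 - Finsupp.single T 1 - Finsupp.single P 1 := ⟨_, rfl⟩
    have hEdeg : ddeg E = m - 1 := by
      rw [hEdef, ddeg_sub, ddeg_sub, ddeg_sub, ddeg_single, ddeg_single, ddeg_single,
        ddeg_single, deg_one, deg_one, deg_one, deg_one]
      push_cast
      ring
    have hell : ell E = m - 1 := by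
      rw [← hEdeg]
      exact hRR k K lam x y hE E (by omega)
    have hEval : ∀ Q : Place k K, -E Q = e1 Q + if Q = P then 1 else 0 := by
      intro Q
      rw [hEdef, he1]
      simp only [Finsupp.coe_sub, Pi.sub_apply, Finsupp.single_apply, eq_comm (a := o),
        eq_comm (a := p'), eq_comm (a := T), eq_comm (a := P)]
      split_ifs <;> ring
    have hmem : ∀ j : Fin m, r1 x y α β γ (Pi.single j (1 : k)) ∈ LL E := by
      intro j
      rw [mem_LL]
      by_cases h0 : r1 x y α β γ (Pi.single j (1 : k)) = 0
      · exact Or.inl h0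
      · right
        intro Q
        rw [hEval]
        split_ifs with hQ
        · rw [hQ]
          exact (heps j).resolve_left h0
        · rw [add_zero]
          exact (hge1 Q _).resolve_left h0
    have hli : LinearIndependent k
        (fun j : Fin m => (⟨r1 x y α β γ (Pi.single j (1 : k)), hmem j⟩ : LL E)) := by
      rw [Fintype.linearIndependent_iff]
      intro c hc
      have h1 := congrArg Subtype.val hc
      rw [AddSubmonoidClass.coe_finset_sum] at h1
      have h2 : r1 x y α β γ c = 0 := by
        rw [← r1_lin]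
        exact h1
      have h3 := r1_ne hB hE ho h2
      intro i
      rw [h3]
      rfl
    unfold ell at hell
    have hfr : (Module.finrank k (LL E) : ℤ) = m - 1 := hell
    have hfin : Module.Finite k (LL E) := Module.finite_of_finrank_pos (by omega)
    have h4 := hli.fintype_card_le_finrank
    rw [Fintype.card_fin] at h4
    omega
  -- the minimal orders
  obtain ⟨v, hv⟩ : ∃ v : Place k K → ℤ, v = fun P =>
    (if P = p then 1 else 0) - (2 * (m : ℤ) + 1) * (if P = o then 1 else 0) := ⟨_, rfl⟩
  have hordphi : ∀ P : Place k K, P.ord (phi x y α β γ) =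
      2 * (if P = p' then 1 else 0) - (if P = p then 1 else 0) - (if P = o then 1 else 0) := by
    intro P
    obtain ⟨h1, h2, h3, h4⟩ := hphi P
    by_cases a1 : P = p'
    · have a2 : P ≠ p := a1 ▸ hpp'.symm
      have a3 : P ≠ o := a1 ▸ hp'o
      rw [h1 a1, if_pos a1, if_neg a2, if_neg a3]
      norm_num
    · by_cases a2 : P = p
      · have a3 : P ≠ o := a2 ▸ hpo
        rw [h2 a2, if_neg a1, if_pos a2, if_neg a3]
        norm_num
      · by_cases a3 : P = o
        · rw [h3 a3, if_neg a1, if_neg a2, if_pos a3]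
          norm_num
        · rw [h4 a1 a2 a3, if_neg a1, if_neg a2, if_neg a3]
          norm_num
  have hordx' : ∀ P : Place k K, P.ord x = 2 * (if P = T then 1 else 0) -
      2 * (if P = o then 1 else 0) := by
    intro P
    by_cases h1 : P = o
    · have h2 : P ≠ T := h1 ▸ hTo.symm
      rw [if_neg h2, if_pos h1, h1, hox]
      norm_num
    · rw [hordx P h1, if_neg h1]
      split_ifs <;> norm_num
  have hmoge : ∀ P : Place k K, v P ≤ mo P (uu x y α β γ r s) := by
    intro P
    have hU := fun i => hUU k K lam x y hE o ho α β γ hβ hγ hαβγ hsym m r s i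
    have huu : uu x y α β γ r s ≠ 0 := by
      intro h
      have h1 := congrFun h 0
      have h2 : r0 x y α β γ r ^ 2 / phi x y α β γ ≠ 0 :=
        div_ne_zero (pow_ne_zero _ hr0) hphi0
      exact h2 h1
    refine le_mo P huu fun i => ?_
    rw [hv]
    by_cases h1 : P = o
    · have h2 : P ≠ p := h1 ▸ hpo.symm
      simp only [if_neg h2, if_pos h1]
      rw [h1]
      exact (hU i).2.1.mono (by omega)
    · by_cases h2 : P = p
      · simp only [if_pos h2, if_neg h1]
        rw [h2]
        exact ((hU i).2.2 p hpx hpy).mono (by omega)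
      · simp only [if_neg h2, if_neg h1]
        exact ((hU i).1 P h1).mono (by omega)
  have hmole : ∀ P : Place k K, mo P (uu x y α β γ r s) ≤ v P := by
    intro P
    by_cases hP0 : Ge P (e0 P + 1) (r0 x y α β γ r)
    · have hP1 : ¬ Ge P (e1 P + 1) (r1 x y α β γ s) := fun h => key P hP0 h
      have h1 : P.ord (r1 x y α β γ s) = e1 P := by
        have h2 := (hge1 P s).resolve_left hr1
        have h3 : ¬ (e1 P + 1 ≤ P.ord (r1 x y α β γ s)) := fun h => hP1 (Or.inr h)
        omega
      have h4 : uu x y α β γ r s 1 ≠ 0 := div_ne_zero (pow_ne_zero _ hr1) hxphi0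
      refine (mo_le P h4).trans (le_of_eq ?_)
      change P.ord (r1 x y α β γ s ^ 2 / (x * phi x y α β γ)) = v P
      rw [P.ord_div (pow_ne_zero _ hr1) hxphi0, P.ord_pow, P.ord_mul hx0 hphi0, h1, hordx',
        hordphi, he1, hv]
      push_cast
      ring
    · have h1 : P.ord (r0 x y α β γ r) = e0 P := by
        have h2 := (hge0 P r).resolve_left hr0
        have h3 : ¬ (e0 P + 1 ≤ P.ord (r0 x y α β γ r)) := fun h => hP0 (Or.inr h)
        omega
      have h4 : uu x y α β γ r s 0 ≠ 0 := div_ne_zero (pow_ne_zero _ hr0) hphi0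
      refine (mo_le P h4).trans (le_of_eq ?_)
      change P.ord (r0 x y α β γ r ^ 2 / phi x y α β γ) = v P
      rw [P.ord_div (pow_ne_zero _ hr0) hphi0, P.ord_pow, h1, hordphi, he0, hv]
      push_cast
      ring
  have hmo : ∀ P : Place k K, mo P (uu x y α β γ r s) = v P := fun P =>
    le_antisymm (hmole P) (hmoge P)
  rw [ht_finset (k := k) (uu x y α β γ r s) {o, p} (by
    intro P hP
    rw [hmo, hv] at hP
    by_contra h
    simp only [Finset.mem_insert, Finset.mem_singleton, not_or] at h
    simp only [if_neg h.1, if_neg h.2] at hP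
    exact hP (by ring))]
  rw [Finset.sum_pair hpo.symm, hmo, hmo, hv]
  simp only [if_true, if_neg hpo, if_neg hpo.symm]
  ring

end ht

end Pool.Agent.Y761.DP
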