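import Pool.Agent.Y761.DP.UU

/-!
# Project DP: the functions `uu` determine their parameters
-/

set_option autoImplicit false
set_option linter.unusedSectionVars false

namespace Pool.Agent.Y761.DP

open FF Pool.Agent.W603.LV Pool.Agent.TH145.GH Pool.Agent.Y166.DP

section fsum

variable {k K : Type} [Field k] [Field K] [Algebra k K] {x y : K} {m : ℕ}

theorem fn_zero {A : Type} [CommRing A] (x y : A) : fn x y 0 = 1 := by
  unfold fn
  rw [if_pos rfl]

theorem fn_one {A : Type} [CommRing A] (x y : A) : fn x y 1 = x := by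
  unfold fn
  rw [if_neg (by norm_num), if_pos (by norm_num)]
  norm_num

theorem sum0_eq (c : ℕ → k) (t : Fin m → k) :
    ∑ j, algebraMap k K (t j) * (fn x y (j + 1) - algebraMap k K (c (j + 1))) =
      fsum x y (Fin.cons (-∑ j : Fin m, t j * c (j + 1)) t : Fin (m + 1) → k) := by
  unfold fsum
  rw [Fin.sum_univ_succ]
  simp only [Fin.cons_zero, Fin.cons_succ, Fin.val_zero, Fin.val_succ, fn_zero, mul_sub,
    Finset.sum_sub_distrib, map_neg, map_sum, map_mul, mul_one]
  ring

theorem sum1_eq (c : ℕ → k) (t : Fin m → k) :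
    ∑ j, algebraMap k K (t j) * (fn x y (j + 2) - algebraMap k K (c (j + 2)) * x) =
      fsum x y (Fin.cons 0 (Fin.cons (-∑ j : Fin m, t j * c (j + 2)) t) : Fin (m + 2) → k) := by
  unfold fsum
  rw [Fin.sum_univ_succ, Fin.sum_univ_succ]
  simp only [Fin.cons_zero, Fin.cons_succ, Fin.val_zero, Fin.val_succ, fn_zero, mul_sub,
    Finset.sum_sub_distrib, map_neg, map_sum, map_mul, map_zero, zero_mul, zero_add, fn_one]
  rw [neg_mul, Finset.sum_mul]
  simp only [mul_assoc]
  ring

end fsum

section der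

variable {K : Type} [Field K] [CharZero K] (D : Derivation ℤ K K)

theorem dz_mul {f g : K} (hf : D f = 0) (hg : D g = 0) : D (f * g) = 0 := by
  rw [Derivation.leibniz, hf, hg, smul_zero, smul_zero, add_zero]

theorem dz_pow {f : K} (hf : D f = 0) (n : ℕ) : D (f ^ n) = 0 := by
  rw [Derivation.leibniz_pow, hf, smul_zero, smul_zero]

theorem dz_div {f g : K} (hf : D f = 0) (hg : D g = 0) : D (f / g) = 0 := by
  by_cases h : g = 0
  · rw [h, div_zero, map_zero]
  · have h1 : D (g * (f / g)) = 0 := by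
      rw [mul_div_cancel₀ _ h]
      exact hf
    rw [Derivation.leibniz, hg, smul_zero, add_zero, smul_eq_mul] at h1
    exact (mul_eq_zero.1 h1).resolve_left h

theorem dz_sq {f : K} (h : D (f ^ 2) = 0) : D f = 0 := by
  rw [pow_two, Derivation.leibniz, smul_eq_mul] at h
  have h1 : 2 * (f * D f) = 0 := by rw [← h]; ring
  rcases mul_eq_zero.1 ((mul_eq_zero.1 h1).resolve_left two_ne_zero) with h2 | h2
  · rw [h2, map_zero]
  · exact h2

theorem dz_fn {x y : K} (hx : D x = 0) (hy : D y = 0) (j : ℕ) : D (fn x y j) = 0 := by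
  unfold fn
  split_ifs
  · exact Derivation.map_one_eq_zero D
  · exact dz_pow D hx _
  · exact dz_mul D (dz_pow D hx _) hy

end der

section inj

variable {k K : Type} [Field k] [Field K] [Algebra k K] [CharZero k] [IsAlgClosed k] [IsFF k K]
  {lam : k} {x y : K}

theorem y_ne (hE : Ell k K lam x y) : y ≠ 0 := by
  intro h
  have h1 := hE.eqn
  rw [h, zero_pow (by norm_num)] at h1
  have h2 : ∀ c : k, x - algebraMap k K c ≠ 0 := by
    intro c hc
    apply hE.tr
    rw [sub_eq_zero.1 hc]
    exact isAlgebraic_algebraMap c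
  rcases mul_eq_zero.1 h1.symm with h3 | h3
  · rcases mul_eq_zero.1 h3 with h4 | h4
    · exact x_ne hE h4
    · exact h2 1 (by rw [map_one]; exact h4)
  · exact h2 lam h3

theorem x_sub_ne (hE : Ell k K lam x y) (c : k) : x - algebraMap k K c ≠ 0 := by
  intro hc
  apply hE.tr
  rw [sub_eq_zero.1 hc]
  exact isAlgebraic_algebraMap c

/-- the lift kills `y` -/
theorem dy_zero (hE : Ell k K lam x y) [CharZero K] {D : Derivation ℤ k k}
    {D' : Derivation ℤ K K} (hl : D lam = 0) (hL : Lifts D D') (hx : D' x = 0) : D' y = 0 := by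
  apply dz_sq
  rw [hE.eqn]
  refine dz_mul D' (dz_mul D' hx ?_) ?_
  · rw [map_sub, hx, Derivation.map_one_eq_zero, sub_zero]
  · rw [map_sub, hx, hL, hl, map_zero, sub_zero]

theorem sem_of_lifts {D : Derivation ℤ k k} {D' : Derivation ℤ K K} (hL : Lifts D D') :
    Sem k D' := fun c => ⟨_, hL c⟩

theorem stmInj (hInf : StmInf) (hB : StmBasis) (hPres : StmPres) (hPhi : StmPhi)
    (hUU : StmUU) : StmInj := by
  classical
  intro k K _ _ _ _ _ _ lam x y hE α β γ hβ hγ hαβγ hsym m r s hm hr hs hht D D' hDl hL hx hu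
  have hK : CharZero K := charZero_of_injective_algebraMap (algebraMap k K).injective
  obtain ⟨o, hox, hoy, hreg⟩ := hInf k K lam x y hE
  have ho : o.ord x < 0 := by omega
  obtain ⟨p, p', hpo, hp'o, hpp', hpx, hpy, hp'x, hp'y, hphi0, hphi⟩ :=
    hPhi k K lam x y hE o ho α β γ hβ hγ hαβγ hsym
  have hα : α ≠ 0 := by
    rintro rfl
    exact hαβγ (by ring)
  have hβ0 : β ≠ 0 := by
    rintro rfl
    exact hαβγ (by ring)
  have hγ0 : γ ≠ 0 := by
    rintro rfl
    exact hαβγ (by ring)
  -- the minimal order at `p`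
  have hU := fun i => hUU k K lam x y hE o ho α β γ hβ hγ hαβγ hsym m r s i
  have huu : uu x y α β γ r s ≠ 0 := by
    intro h
    rw [h] at hht
    unfold ht at hht
    simp only [mo_zero, finsum_zero, neg_zero] at hht
    omega
  have hmo_o : -(2 * m + 1 : ℤ) ≤ mo o (uu x y α β γ r s) := le_mo o huu fun i => (hU i).2.1
  have hmo_P : ∀ P : Place k K, P ≠ o → 0 ≤ mo P (uu x y α β γ r s) := fun P hP =>
    le_mo P huu fun i => (hU i).1 P hP
  have hmo_p : 1 ≤ mo p (uu x y α β γ r s) := le_mo p huu fun i => (hU i).2.2 p hpx hpy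
  have hmo_p1 : mo p (uu x y α β γ r s) = 1 := by
    obtain ⟨T, hT⟩ : ∃ T : Finset (Place k K), T =
        insert o (insert p (mo_supp (k := k) (uu x y α β γ r s)).toFinset) := ⟨_, rfl⟩
    have h1 := ht_finset (k := k) (uu x y α β γ r s) T (by
      intro P hP
      rw [hT]
      simp [hP])
    have hoT : o ∈ T := by rw [hT]; simp
    have hpT : p ∈ T.erase o := by rw [hT]; simp [hpo]
    rw [← Finset.add_sum_erase _ _ hoT, ← Finset.add_sum_erase _ _ hpT, hht] at h1
    have h2 : 0 ≤ ∑ P ∈ (T.erase o).erase p, mo P (uu x y α β γ r s) := by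
      refine Finset.sum_nonneg fun P hP => hmo_P P ?_
      exact Finset.ne_of_mem_erase (Finset.mem_of_mem_erase hP)
    omega
  obtain ⟨i, hi0, hi⟩ := exists_mo p huu
  rw [hmo_p1] at hi
  have hsem : Sem k D' := sem_of_lifts hL
  have hpres := (hPres k K p D' hsem).2 (uu x y α β γ r s i) hi (by
    rw [hu i]
    exact Ge.zero)
  have h1 := hpres 1 _ hpx
  rw [map_sub, hx, zero_sub, hL] at h1
  have hDα2 : D (α ^ 2) = 0 := by
    by_contra h
    have h2 := h1.neg
    rw [neg_neg] at h2
    exact not_ge_const h h2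
  have hDα : D α = 0 := dz_sq D hDα2
  have hDβ : D β = 0 := by
    apply dz_sq
    rw [hβ, map_sub, hDα2, Derivation.map_one_eq_zero, sub_zero]
  have hDγ : D γ = 0 := by
    apply dz_sq
    rw [hγ, map_sub, hDα2, hDl, sub_zero]
  have hy : D' y = 0 := dy_zero hE hDl hL hx
  have hDpx : D (px α β γ) = 0 := by
    unfold px
    exact dz_mul D (by rw [map_add, hDα, hDβ, add_zero]) (by rw [map_add, hDα, hDγ, add_zero])
  have hDpy : D (py α β γ) = 0 := by
    unfold py
    exact dz_mul D (dz_mul D (by rw [map_add, hDα, hDβ, add_zero])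
      (by rw [map_add, hDα, hDγ, add_zero])) (by rw [map_add, hDβ, hDγ, add_zero])
  have hDphi : D' (phi x y α β γ) = 0 := by
    unfold phi
    have h2 : D' (x - algebraMap k K (α ^ 2)) = 0 := by
      rw [map_sub, hx, hL, hDα2, map_zero, sub_zero]
    refine dz_div D' ?_ h2
    have h3 : D (α * β * γ) = 0 := dz_mul D (dz_mul D hDα hDβ) hDγ
    have h4 : D (α + β + γ) = 0 := by
      rw [map_add, map_add, hDα, hDβ, hDγ, add_zero, add_zero]
    rw [map_sub, map_add, hy, hL, h3, map_zero, add_zero, zero_sub, neg_eq_zero]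
    refine dz_mul D' ?_ h2
    rw [hL, h4, map_zero]
  refine ⟨hDα, ?_, ?_⟩
  · -- the coefficients of `r0`
    have h2 : D' (r0 x y α β γ r) = 0 := by
      apply dz_sq
      have h3 : r0 x y α β γ r ^ 2 = uu x y α β γ r s 0 * phi x y α β γ := by
        change _ = r0 x y α β γ r ^ 2 / phi x y α β γ * phi x y α β γ
        rw [div_mul_cancel₀ _ hphi0]
      rw [h3]
      exact dz_mul D' (hu 0) hDphi
    have h3 : D' (r0 x y α β γ r) = ∑ j, algebraMap k K (D (r j)) *
        (fn x y (j + 1) - algebraMap k K (fn (px α β γ) (py α β γ) (j + 1))) := by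
      unfold r0
      rw [map_sum]
      refine Finset.sum_congr rfl fun j _ => ?_
      rw [Derivation.leibniz, map_sub, dz_fn D' hx hy, hL, hL, dz_fn D hDpx hDpy, map_zero,
        sub_zero, smul_zero, zero_add, smul_eq_mul]
      ring
    rw [h3, sum0_eq] at h2
    have h4 := (hB k K lam x y hE o ho).2.1 _ _ h2
    intro j
    have h5 := congrFun h4 j.succ
    rw [Fin.cons_succ] at h5
    exact h5
  · have h2 : D' (r1 x y α β γ s) = 0 := by
      apply dz_sq
      have hne : x * phi x y α β γ ≠ 0 := mul_ne_zero (x_ne hE) hphi0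
      have h3 : r1 x y α β γ s ^ 2 = uu x y α β γ r s 1 * (x * phi x y α β γ) := by
        change _ = r1 x y α β γ s ^ 2 / (x * phi x y α β γ) * (x * phi x y α β γ)
        rw [div_mul_cancel₀ _ hne]
      rw [h3]
      exact dz_mul D' (hu 1) (dz_mul D' hx hDphi)
    have h3 : D' (r1 x y α β γ s) = ∑ j, algebraMap k K (D (s j)) *
        (fn x y (j + 2) - algebraMap k K
          ((fun n => fn (px α β γ) (py α β γ) n / px α β γ) (j + 2)) * x) := by
      unfold r1
      rw [map_sum]
      refine Finset.sum_congr rfl fun j _ => ?_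
      have h6 : D' (algebraMap k K (fn (px α β γ) (py α β γ) (j + 2) / px α β γ) * x) = 0 := by
        refine dz_mul D' ?_ hx
        rw [hL, dz_div D (dz_fn D hDpx hDpy _) hDpx, map_zero]
      rw [Derivation.leibniz, map_sub, dz_fn D' hx hy, h6, hL, sub_zero, smul_zero, zero_add,
        smul_eq_mul]
      ring
    have h7 := (sum1_eq (fun n => fn (px α β γ) (py α β γ) n / px α β γ)
      (fun j => D (s j))).symm.trans (h3.symm.trans h2)
    have h4 := (hB k K lam x y hE o ho).2.1 _ _ h7
    intro j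
    have h5 := congrFun h4 j.succ.succ
    rw [Fin.cons_succ, Fin.cons_succ] at h5
    exact h5

end inj

end Pool.Agent.Y761.DP
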