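import Pool.Agent.Y166.DP.Stm

/-!
# Project DP: poles and zeros of the functions `uu`
-/

set_option autoImplicit false
set_option linter.unusedSectionVars false

namespace Pool.Agent.Y761.DP

open FF Pool.Agent.W603.LV Pool.Agent.TH145.GH Pool.Agent.Y166.DP

section basic

variable {k K : Type} [Field k] [Field K] [Algebra k K]

theorem ge_of_div {P : Place k K} {N : ℤ} {f h : K} (h0 : h ≠ 0) (hf : Ge P (N + P.ord h) f) :
    Ge P N (f / h) := by
  apply Ge.of_mul' (h := h) h0 rfl
  rwa [mul_div_cancel₀ _ h0]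

theorem not_ge_const {P : Place k K} {c : k} (hc : c ≠ 0) : ¬ Ge P 1 (algebraMap k K c) := by
  rintro (h | h)
  · exact hc ((map_eq_zero _).1 h)
  · rw [P.ord_const hc] at h
    omega

/-- regular with the value `c` -/
def Vl (P : Place k K) (f : K) (c : k) : Prop := Ge P 1 (f - algebraMap k K c)

theorem Vl.reg {P : Place k K} {f : K} {c : k} (h : Vl P f c) : Ge P 0 f := by
  have h1 : f = (f - algebraMap k K c) + algebraMap k K c := by ring
  rw [h1]
  exact (Ge.mono (by norm_num) h).add (Ge.const c)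

theorem Vl.mul {P : Place k K} {f g : K} {c d : k} (h : Vl P f c) (h' : Vl P g d) :
    Vl P (f * g) (c * d) := by
  have e : f * g - algebraMap k K (c * d) =
      f * (g - algebraMap k K d) + algebraMap k K d * (f - algebraMap k K c) := by
    rw [map_mul]
    ring
  unfold Vl
  rw [e]
  have h1 := h.reg.mul (M := 1) h'
  have h2 := (Ge.const (P := P) d).mul (M := 1) h
  rw [zero_add] at h1 h2
  exact h1.add h2

theorem Vl.const {P : Place k K} (c : k) : Vl P (algebraMap k K c) c := by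
  unfold Vl
  rw [sub_self]
  exact Ge.zero

theorem Vl.one {P : Place k K} : Vl P (1 : K) (1 : k) := by
  have := Vl.const (P := P) (1 : k)
  rwa [map_one] at this

theorem Vl.pow {P : Place k K} {f : K} {c : k} (h : Vl P f c) (n : ℕ) : Vl P (f ^ n) (c ^ n) := by
  induction n with
  | zero =>
    rw [pow_zero, pow_zero]
    exact Vl.one
  | succ n ih =>
    rw [pow_succ, pow_succ]
    exact ih.mul h

theorem Vl.fn {P : Place k K} {x y : K} {a b : k} (hx : Vl P x a) (hy : Vl P y b) (j : ℕ) :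
    Vl P (fn x y j) (fn a b j) := by
  unfold Pool.Agent.Y166.DP.fn
  split_ifs
  · exact Vl.one
  · exact hx.pow _
  · exact (hx.pow _).mul hy

theorem Vl.unique {P : Place k K} {f : K} {c d : k} (h : Vl P f c) (h' : Vl P f d) : c = d := by
  by_contra hcd
  have h1 : Ge P 1 (algebraMap k K (d - c)) := by
    have e : algebraMap k K (d - c) = (f - algebraMap k K c) - (f - algebraMap k K d) := by
      rw [map_sub]
      ring
    rw [e]
    exact Ge.sub h h'
  exact not_ge_const (sub_ne_zero.2 (Ne.symm hcd)) h1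

theorem ge_fn {P : Place k K} {x y : K} (hx : Ge P 0 x) (hy : Ge P 0 y) (j : ℕ) :
    Ge P 0 (fn x y j) := by
  unfold fn
  split_ifs
  · exact Ge.one
  · have := hx.pow ((j + 1) / 2)
    rwa [mul_zero] at this
  · have := (hx.pow ((j - 2) / 2)).mul hy
    rwa [mul_zero, zero_add] at this

theorem ge_fn_two {P : Place k K} {x y : K} (hx : Ge P 1 x) (hy : Ge P 1 y) (j : ℕ)
    (hj : 1 ≤ j) : Ge P 1 (fn x y j) := by
  unfold fn
  split_ifs with h1 h2
  · omega
  · refine (hx.pow ((j + 1) / 2)).mono ?_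
    rw [mul_one]
    have : 1 ≤ (j + 1) / 2 := by omega
    exact_mod_cast this
  · refine ((hx.pow ((j - 2) / 2)).mul hy).mono ?_
    rw [mul_one]
    have : (0 : ℤ) ≤ ((j - 2) / 2 : ℕ) := Int.natCast_nonneg _
    omega

theorem px_ne {lam : k} {α β γ : k} (hl : lam ≠ 0) (hβ : β ^ 2 = α ^ 2 - 1)
    (hγ : γ ^ 2 = α ^ 2 - lam) : px α β γ ≠ 0 := by
  unfold px
  apply mul_ne_zero
  · intro h
    have : (α + β) * (α - β) = 1 := by linear_combination (-1 : k) * hβ
    rw [h, zero_mul] at this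
    exact zero_ne_one this
  · intro h
    have : (α + γ) * (α - γ) = lam := by linear_combination (-1 : k) * hγ
    rw [h, zero_mul] at this
    exact hl this.symm

end basic

section curve

variable {k K : Type} [Field k] [Field K] [Algebra k K] [CharZero k] [IsAlgClosed k] [IsFF k K]
  {lam : k} {x y : K} {o : Place k K}

/-- the situation at the point at infinity -/
theorem inf_facts (hInf : StmInf) (hE : Ell k K lam x y) (ho : o.ord x < 0) :
    o.ord x = -2 ∧ o.ord y = -3 ∧ ∀ P, P ≠ o → Ge P 0 x ∧ Ge P 0 y := by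
  obtain ⟨o', h1, h2, h3⟩ := hInf k K lam x y hE
  have h4 : o = o' := by
    by_contra h
    rcases (h3 o h).1 with h5 | h5
    · rw [h5, o.ord_zero] at ho
      omega
    · omega
  rw [h4]
  exact ⟨h1, h2, h3⟩

theorem x_ne (hE : Ell k K lam x y) : x ≠ 0 := by
  intro h
  exact hE.tr (h ▸ isAlgebraic_zero)

/-- the order of `x` outside infinity -/
theorem ord_x (hInf : StmInf) (hPts : StmPts) (hE : Ell k K lam x y) (ho : o.ord x < 0)
    {P : Place k K} (hP : P ≠ o) : (P.ord x = 0) ∨
      (P.ord x = 2 ∧ P.ord y = 1 ∧ Vl P x 0 ∧ Vl P y 0) := by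
  obtain ⟨h1, h2, h3⟩ := inf_facts hInf hE ho
  have hx0 := x_ne hE
  have hx := (h3 P hP).1.resolve_left hx0
  rcases hx.eq_or_lt with h | h
  · exact Or.inl h.symm
  · right
    obtain ⟨a, b, hab, ha, hb⟩ := (hPts k K lam x y hE).1 P (h3 P hP).1
    have hx1 : Vl P x 0 := by
      unfold Vl
      rw [map_zero, sub_zero]
      exact Or.inr h
    have ha0 : a = 0 := Vl.unique ha hx1
    rw [ha0, zero_mul, zero_mul] at hab
    have hb0 : b = 0 := pow_eq_zero_iff (n := 2) (by norm_num) |>.1 hab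
    rw [ha0] at ha
    rw [hb0] at hb
    have h4 := ((hPts k K lam x y hE).2.2 0 0 P ha hb).2.2 rfl
    rw [map_zero, sub_zero] at h4
    exact ⟨h4.2, h4.1, ha, hb⟩

variable {α β γ : k} {m : ℕ}

theorem r0_reg {P : Place k K} (hx : Ge P 0 x) (hy : Ge P 0 y) (r : Fin m → k) :
    Ge P 0 (r0 x y α β γ r) := by
  unfold r0
  refine Ge.sum _ _ fun j _ => ?_
  have := (Ge.const (P := P) (r j)).mul ((ge_fn hx hy (j + 1)).sub
    (Ge.const (P := P) (fn (px α β γ) (py α β γ) (j + 1))))
  rwa [zero_add] at this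

theorem r1_reg {P : Place k K} (hx : Ge P 0 x) (hy : Ge P 0 y) (r : Fin m → k) :
    Ge P 0 (r1 x y α β γ r) := by
  unfold r1
  refine Ge.sum _ _ fun j _ => ?_
  have h1 := (Ge.const (P := P) (fn (px α β γ) (py α β γ) (j + 2) / px α β γ)).mul hx
  rw [zero_add] at h1
  have := (Ge.const (P := P) (r j)).mul ((ge_fn hx hy (j + 2)).sub h1)
  rwa [zero_add] at this

theorem r0_p' {P : Place k K} (hx : Vl P x (px α β γ)) (hy : Vl P y (py α β γ)) (r : Fin m → k) :
    Ge P 1 (r0 x y α β γ r) := by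
  unfold r0
  refine Ge.sum _ _ fun j _ => ?_
  have h1 : Ge P 1 (fn x y (j + 1) - algebraMap k K (fn (px α β γ) (py α β γ) (j + 1))) :=
    Vl.fn hx hy (j + 1)
  have := (Ge.const (P := P) (r j)).mul h1
  rwa [zero_add] at this

theorem r1_p' {P : Place k K} (hx : Vl P x (px α β γ)) (hy : Vl P y (py α β γ))
    (hp : px α β γ ≠ 0) (r : Fin m → k) : Ge P 1 (r1 x y α β γ r) := by
  unfold r1
  refine Ge.sum _ _ fun j _ => ?_
  have h1 : Ge P 1 (fn x y (j + 2) - algebraMap k K (fn (px α β γ) (py α β γ) (j + 2))) :=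
    Vl.fn hx hy (j + 2)
  have h2 : Ge P 1 (algebraMap k K (fn (px α β γ) (py α β γ) (j + 2) / px α β γ) *
      (x - algebraMap k K (px α β γ))) := by
    have := (Ge.const (P := P) (fn (px α β γ) (py α β γ) (j + 2) / px α β γ)).mul (M := 1) hx
    rwa [zero_add] at this
  have h3 : fn x y (j + 2) - algebraMap k K (fn (px α β γ) (py α β γ) (j + 2) / px α β γ) * x =
      (fn x y (j + 2) - algebraMap k K (fn (px α β γ) (py α β γ) (j + 2))) -
      algebraMap k K (fn (px α β γ) (py α β γ) (j + 2) / px α β γ) *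
        (x - algebraMap k K (px α β γ)) := by
    have h4 : algebraMap k K (fn (px α β γ) (py α β γ) (j + 2)) =
        algebraMap k K (fn (px α β γ) (py α β γ) (j + 2) / px α β γ) *
          algebraMap k K (px α β γ) := by
      rw [← map_mul, div_mul_cancel₀ _ hp]
    rw [h4]
    ring
  rw [h3]
  have := (Ge.const (P := P) (r j)).mul (h1.sub h2)
  rwa [zero_add] at this

theorem r1_T {P : Place k K} (hx : Vl P x 0) (hy : Vl P y 0) (r : Fin m → k) :
    Ge P 1 (r1 x y α β γ r) := by
  have hx' : Ge P 1 x := by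
    unfold Vl at hx
    rwa [map_zero, sub_zero] at hx
  have hy' : Ge P 1 y := by
    unfold Vl at hy
    rwa [map_zero, sub_zero] at hy
  unfold r1
  refine Ge.sum _ _ fun j _ => ?_
  have h1 := (Ge.const (P := P) (fn (px α β γ) (py α β γ) (j + 2) / px α β γ)).mul hx'
  rw [zero_add] at h1
  have := (Ge.const (P := P) (r j)).mul ((ge_fn_two hx' hy' (j + 2) (by omega)).sub h1)
  rwa [zero_add] at this

theorem ge_fn_o (hB : StmBasis) (hE : Ell k K lam x y) (ho : o.ord x < 0) (j : ℕ) :
    Ge o (-((j : ℤ) + 1)) (fn x y j) := by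
  obtain ⟨h1, h2⟩ := (hB k K lam x y hE o ho).1 j
  right
  rw [h2]
  split_ifs with h
  · subst h
    simp
  · exact le_rfl

theorem r0_o (hB : StmBasis) (hE : Ell k K lam x y) (ho : o.ord x < 0) (r : Fin m → k) :
    Ge o (-((m : ℤ) + 1)) (r0 x y α β γ r) := by
  unfold r0
  refine Ge.sum _ _ fun j _ => ?_
  have hj : ((j : ℕ) : ℤ) + 1 ≤ m := by
    have := j.2
    omega
  have h1 := (ge_fn_o hB hE ho ((j : ℕ) + 1)).mono (M := -((m : ℤ) + 1)) (by push_cast; omega)
  have h2 : Ge o (-((m : ℤ) + 1)) (algebraMap k K (fn (px α β γ) (py α β γ) ((j : ℕ) + 1))) :=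
    (Ge.const (P := o) _).mono (by omega)
  have := (Ge.const (P := o) (r j)).mul (h1.sub h2)
  rwa [zero_add] at this

theorem r1_o (hInf : StmInf) (hB : StmBasis) (hE : Ell k K lam x y) (ho : o.ord x < 0)
    (r : Fin m → k) : Ge o (-((m : ℤ) + 2)) (r1 x y α β γ r) := by
  unfold r1
  refine Ge.sum _ _ fun j _ => ?_
  have hj : ((j : ℕ) : ℤ) + 1 ≤ m := by
    have := j.2
    omega
  have h1 := (ge_fn_o hB hE ho ((j : ℕ) + 2)).mono (M := -((m : ℤ) + 2)) (by push_cast; omega)
  have hx : Ge o (-((m : ℤ) + 2)) x := by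
    right
    rw [(inf_facts hInf hE ho).1]
    omega
  have h2 := (Ge.const (P := o) (fn (px α β γ) (py α β γ) (j + 2) / px α β γ)).mul hx
  rw [zero_add] at h2
  have := (Ge.const (P := o) (r j)).mul (h1.sub h2)
  rwa [zero_add] at this

theorem stmUU (hInf : StmInf) (hB : StmBasis) (hPts : StmPts) (hPhi : StmPhi) : StmUU := by
  classical
  intro k K _ _ _ _ _ _ lam x y hE o ho α β γ hβ hγ hαβγ hsym m r s i
  obtain ⟨hox, hoy, hreg⟩ := inf_facts hInf hE ho
  obtain ⟨p, p', hpo, hp'o, hpp', hpx, hpy, hp'x, hp'y, hphi0, hphi⟩ :=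
    hPhi k K lam x y hE o ho α β γ hβ hγ hαβγ hsym
  have hx0 := x_ne hE
  have hpx0 : px α β γ ≠ 0 := px_ne hE.lam0 hβ hγ
  have hα0 : α ^ 2 ≠ 0 := by
    apply pow_ne_zero
    intro h
    apply hαβγ
    rw [h, zero_mul, zero_mul]
  -- the order of `x` at the special places
  have hxp : p.ord x = 0 := by
    rcases ord_x hInf hPts hE ho hpo with h | ⟨_, _, h, _⟩
    · exact h
    · exact absurd (Vl.unique h hpx).symm hα0
  have hxp' : p'.ord x = 0 := by
    rcases ord_x hInf hPts hE ho hp'o with h | ⟨_, _, h, _⟩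
    · exact h
    · exact absurd (Vl.unique h hp'x).symm hpx0
  have hxphi0 : x * phi x y α β γ ≠ 0 := mul_ne_zero hx0 hphi0
  have hsq : ∀ (P : Place k K) (n : ℤ) (f : K), Ge P n f → Ge P (2 * n) (f ^ 2) := by
    intro P n f h
    have := h.pow 2
    exact_mod_cast this
  have main : ∀ P : Place k K, (P ≠ o → Ge P 0 (uu x y α β γ r s i)) ∧
      (P = o → Ge P (-(2 * m + 1 : ℤ)) (uu x y α β γ r s i)) ∧
      (P = p → Ge P 1 (uu x y α β γ r s i)) := by
    intro P
    obtain ⟨hq1, hq2, hq3, hq4⟩ := hphi P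
    fin_cases i
    · change (P ≠ o → Ge P 0 (r0 x y α β γ r ^ 2 / phi x y α β γ)) ∧
        (P = o → Ge P (-(2 * m + 1 : ℤ)) (r0 x y α β γ r ^ 2 / phi x y α β γ)) ∧
        (P = p → Ge P 1 (r0 x y α β γ r ^ 2 / phi x y α β γ))
      refine ⟨fun hP => ?_, fun hP => ?_, fun hP => ?_⟩
      · apply ge_of_div hphi0
        have h0 := hsq P 0 _ (r0_reg (α := α) (β := β) (γ := γ) (hreg P hP).1 (hreg P hP).2 r)
        by_cases h1 : P = p'
        · rw [hq1 h1]
          have h2 := hsq P 1 _ (r0_p' (h1 ▸ hp'x) (h1 ▸ hp'y) r)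
          exact h2.mono (by norm_num)
        · by_cases h2 : P = p
          · rw [hq2 h2]
            exact h0.mono (by norm_num)
          · rw [hq4 h1 h2 hP]
            exact h0.mono (by norm_num)
      · apply ge_of_div hphi0
        rw [hq3 hP]
        subst hP
        have h0 := hsq P _ _ (r0_o (α := α) (β := β) (γ := γ) hB hE ho r)
        exact h0.mono (by omega)
      · apply ge_of_div hphi0
        rw [hq2 hP]
        have hP' : P ≠ o := hP ▸ hpo
        have h0 := hsq P 0 _ (r0_reg (α := α) (β := β) (γ := γ) (hreg P hP').1 (hreg P hP').2 r)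
        exact h0.mono (by norm_num)
    · change (P ≠ o → Ge P 0 (r1 x y α β γ s ^ 2 / (x * phi x y α β γ))) ∧
        (P = o → Ge P (-(2 * m + 1 : ℤ)) (r1 x y α β γ s ^ 2 / (x * phi x y α β γ))) ∧
        (P = p → Ge P 1 (r1 x y α β γ s ^ 2 / (x * phi x y α β γ)))
      refine ⟨fun hP => ?_, fun hP => ?_, fun hP => ?_⟩
      · apply ge_of_div hxphi0
        rw [P.ord_mul hx0 hphi0]
        have h0 := hsq P 0 _ (r1_reg (α := α) (β := β) (γ := γ) (hreg P hP).1 (hreg P hP).2 s)
        by_cases h1 : P = p'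
        · rw [hq1 h1, h1, hxp']
          have h2 := hsq p' 1 _ (r1_p' hp'x hp'y hpx0 s)
          exact h2.mono (by norm_num)
        · by_cases h2 : P = p
          · rw [hq2 h2, h2, hxp]
            rw [h2] at h0
            exact h0.mono (by norm_num)
          · rw [hq4 h1 h2 hP]
            rcases ord_x hInf hPts hE ho hP with h3 | ⟨h3, _, h4, h5⟩
            · rw [h3]
              exact h0.mono (by norm_num)
            · rw [h3]
              have h6 := hsq P 1 _ (r1_T (α := α) (β := β) (γ := γ) h4 h5 s)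
              exact h6.mono (by norm_num)
      · apply ge_of_div hxphi0
        rw [P.ord_mul hx0 hphi0, hq3 hP]
        subst hP
        rw [hox]
        have h0 := hsq P _ _ (r1_o (α := α) (β := β) (γ := γ) hInf hB hE ho s)
        exact h0.mono (by omega)
      · apply ge_of_div hxphi0
        rw [P.ord_mul hx0 hphi0, hq2 hP, hP, hxp]
        have h0 := hsq p 0 _ (r1_reg (α := α) (β := β) (γ := γ) (hreg p hpo).1 (hreg p hpo).2 s)
        exact h0.mono (by norm_num)
  refine ⟨fun P hP => (main P).1 hP, (main o).2.1 rfl, fun P hP1 hP2 => ?_⟩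
  have h1 : P = p := ((hPts k K lam x y hE).2.2 (α ^ 2) (α * β * γ) p hpx hpy).1 P hP1 hP2
  exact (main P).2.2 h1

end curve

end Pool.Agent.Y761.DP
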